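import Mathlib
import Pool.Agent.OddDyn.Cubic

set_option autoImplicit false

/-!
# Uniform boundedness in the families `g(x) + c`, `g` a cubic without rational critical points

For every cubic polynomial `g` over `ℚ` whose derivative has no rational root there is a bound `B`
such that, for every rational number `c`, the polynomial `g(x) + c` has at most `B` rational
preperiodic points.
-/

namespace Pool.Agent.Results.MP_c076ed_nt.CubicTranslation

open Polynomial

/-- `x` is preperiodic for `f`: its forward orbit is finite. -/
def IsPreperiodicPt (f : ℚ → ℚ) (x : ℚ) : Prop :=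
  {y : ℚ | ∃ k : ℕ, f^[k] x = y}.Finite

theorem result (g : ℚ[X]) (hg : g.natDegree = 3)
    (hcrit : ∀ x : ℚ, (derivative g).eval x ≠ 0) :
    ∃ B : ℕ, ∀ c : ℚ, ∀ T : Finset ℚ,
      (∀ x ∈ T, IsPreperiodicPt (fun y => g.eval y + c) x) → T.card ≤ B :=
  OddDyn.cubic_bound hg hcrit

end Pool.Agent.Results.MP_c076ed_nt.CubicTranslation
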