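import Mathlib
import Pool.Agent.TransPre.Final

set_option autoImplicit false

/-!
# Uniform boundedness of rational preperiodic points in the translation families `g(x) + c`

For a fixed polynomial `g` over `ℚ` of degree `d ≥ 3` we bound the number of rational
preperiodic points of `x ↦ g(x) + c` uniformly in all rational numbers `c` whose denominator is
not almost entirely composed of primes congruent to `1` modulo `d`.
-/

namespace Pool.Agent.Results.MP_c076ed_nt.TranslationFamilies

open Polynomial

/-- `x` is preperiodic for `f`: its forward orbit is finite. -/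
def IsPreperiodicPt (f : ℚ → ℚ) (x : ℚ) : Prop :=
  {y : ℚ | ∃ k : ℕ, f^[k] x = y}.Finite

/-- `D₁`: the part of the denominator of `c` composed of the primes `p` with `p ≡ 1 mod d`. -/
def denOne (d : ℕ) (c : ℚ) : ℕ :=
  ∏ p ∈ c.den.primeFactors.filter (fun p => p % d = 1), p ^ c.den.factorization p

/-- `D₂`: the part of the denominator of `c` composed of the other primes. -/
def denRest (d : ℕ) (c : ℚ) : ℕ :=
  ∏ p ∈ c.den.primeFactors.filter (fun p => p % d ≠ 1), p ^ c.den.factorization p

/-- For every polynomial `g` over `ℚ` of degree `d ≥ 3` and every `θ > 0` there is a bound `B`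
such that for every rational `c` with `D₁ ^ θ ≤ p ^ (v_p (den c)) * D₂ * max 1 |c|` for some
prime `p`, the map `x ↦ g(x) + c` has at most `B` rational preperiodic points in `ℚ`. -/
theorem result (d : ℕ) (hd : 3 ≤ d) (g : ℚ[X]) (hg : g.natDegree = d) (θ : ℝ) (hθ : 0 < θ) :
    ∃ B : ℕ, ∀ c : ℚ,
      (∃ p : ℕ, p.Prime ∧ (denOne d c : ℝ) ^ θ ≤
        (p : ℝ) ^ c.den.factorization p * (denRest d c : ℝ) * max 1 |(c : ℝ)|) →
      ∀ T : Finset ℚ, (∀ x ∈ T, IsPreperiodicPt (fun y => g.eval y + c) x) → T.card ≤ B := by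
  classical
  obtain ⟨B, hB⟩ := TransPre.bound_forward_invariant hd g hg hθ
  refine ⟨B, ?_⟩
  intro c hc T hT
  have hfin : (⋃ x ∈ T, {y : ℚ | ∃ k : ℕ, (fun y => g.eval y + c)^[k] x = y}).Finite :=
    Set.Finite.biUnion T.finite_toSet (fun x hx => hT x hx)
  have h1 := hB c hc hfin.toFinset ?_
  · refine le_trans (Finset.card_le_card ?_) h1
    intro x hx
    rw [Set.Finite.mem_toFinset]
    simp only [Set.mem_iUnion]
    exact ⟨x, hx, 0, rfl⟩
  · intro x hx
    rw [Set.Finite.mem_toFinset] at hx ⊢
    simp only [Set.mem_iUnion] at hx ⊢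
    obtain ⟨y, hy, k, hk⟩ := hx
    refine ⟨y, hy, k + 1, ?_⟩
    rw [Function.iterate_succ_apply', hk]

end Pool.Agent.Results.MP_c076ed_nt.TranslationFamilies
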